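import Pool.Agent.H27.HB.TA
import Pool.Agent.H27.HB.TD
import Pool.Agent.H27.HB.TF

/-! Row CTS of hbe_modules: centred extremals converge to the Jerison-Lee function. -/

set_option autoImplicit false

namespace Pool.Agent.H44.HB
open MeasureTheory Set Filter Topology Pool.Agent.H80.HS Pool.Agent.H93.HQ Pool.Agent.H27.HB
open scoped ContDiff ENNReal

theorem ps_bounds {n : ℕ} (hn : 1 ≤ n) {p : ℝ} (h1 : 1 < p) (h2 : p ≤ 2) :
    1 ≤ ps n p ∧ ps n p ≤ ps n 2 := by
  have hn' : (1 : ℝ) ≤ n := by exact_mod_cast hn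
  unfold ps
  have h3 : 0 < 2 * (n : ℝ) + 2 - p := by linarith
  have h4 : 0 < 2 * (n : ℝ) + 2 - 2 := by linarith
  constructor
  · rw [le_div_iff₀ h3]
    nlinarith
  · rw [div_le_div_iff₀ h3 h4]
    have h5 : 0 ≤ (2 * (n : ℝ) + 2) * (2 * (n : ℝ) + 2) * (2 - p) :=
      mul_nonneg (by positivity) (by linarith)
    nlinarith

theorem ps_tendsto {n : ℕ} (hn : 1 ≤ n) {p : ℕ → ℝ} (h : Tendsto p atTop (𝓝 2)) :
    Tendsto (fun k => ps n (p k)) atTop (𝓝 (ps n 2)) := by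
  have hn' : (1 : ℝ) ≤ n := by exact_mod_cast hn
  unfold ps
  refine Tendsto.div (h.const_mul _) (tendsto_const_nhds.sub h) ?_
  intro h0
  linarith

theorem int_pow {n : ℕ} {f : H n → ℝ} {q : ℝ} (hq : 1 ≤ q) (h : MemLp f (ENNReal.ofReal q)) :
    Integrable (fun z => |f z| ^ q) := by
  have h0 : ENNReal.ofReal q ≠ 0 := by
    rw [Ne, ENNReal.ofReal_eq_zero, not_le]
    linarith
  have h1 := h.integrable_norm_rpow h0 ENNReal.ofReal_ne_top
  rw [ENNReal.toReal_ofReal (by linarith)] at h1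
  exact h1

theorem tail_sub {n : ℕ} {q : ℕ → ℝ} {φ : ℕ → H n → ℝ} (h : Tail q φ) {σ : ℕ → ℕ}
    (hσ : StrictMono σ) : Tail (fun k => q (σ k)) (fun k => φ (σ k)) := by
  intro η hη
  obtain ⟨M, R, hMR⟩ := h η hη
  exact ⟨M, R, hσ.tendsto_atTop.eventually hMR⟩

theorem diff_ae {n : ℕ} (q : ℕ → ℝ) (Q : ℝ) (hq1 : ∀ k, 1 ≤ q k) (hq2 : ∀ k, q k ≤ Q)
    (d : ℕ → H n → ℝ) (hd : ∀ k, MemLp (d k) (ENNReal.ofReal (q k)))
    (hb : ∀ k, ∫ z, |d k z| ^ q k ≤ (1 / 2) ^ k) :
    ∀ᵐ z, Tendsto (fun k => d k z) atTop (𝓝 0) := by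
  have hQ : 0 < Q := by
    have := hq1 0
    have := hq2 0
    linarith
  have hint : ∀ k, Integrable (fun z => |d k z| ^ q k) := fun k => int_pow (hq1 k) (hd k)
  have hmeas : ∀ k, AEMeasurable (fun z => ENNReal.ofReal (|d k z| ^ q k)) volume := fun k =>
    (hint k).aestronglyMeasurable.aemeasurable.ennreal_ofReal
  have h1 : ∀ k, ∫⁻ z, ENNReal.ofReal (|d k z| ^ q k) ≤ ENNReal.ofReal ((1 / 2) ^ k) := by
    intro k
    rw [← ofReal_integral_eq_lintegral_ofReal (hint k)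
      (Eventually.of_forall fun z => Real.rpow_nonneg (abs_nonneg _) _)]
    exact ENNReal.ofReal_le_ofReal (hb k)
  have h2 : ∫⁻ z, ∑' k, ENNReal.ofReal (|d k z| ^ q k) ≠ ⊤ := by
    rw [lintegral_tsum hmeas]
    refine ne_top_of_le_ne_top ?_ (ENNReal.tsum_le_tsum h1)
    rw [← ENNReal.ofReal_tsum_of_nonneg (fun k => by positivity)
      (summable_geometric_of_lt_one (by norm_num) (by norm_num))]
    exact ENNReal.ofReal_ne_top
  have h3 : ∀ᵐ z, ∑' k, ENNReal.ofReal (|d k z| ^ q k) < ⊤ :=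
    ae_lt_top' (AEMeasurable.tsum hmeas) h2
  filter_upwards [h3] with z hz
  have h4 : Tendsto (fun k => ENNReal.ofReal (|d k z| ^ q k)) atTop (𝓝 0) := by
    rw [← Nat.cofinite_eq_atTop]
    exact ENNReal.tendsto_cofinite_zero_of_tsum_ne_top hz.ne
  have h5 : Tendsto (fun k => |d k z| ^ q k) atTop (𝓝 0) := by
    have h6 := (ENNReal.tendsto_toReal ENNReal.zero_ne_top).comp h4
    rw [ENNReal.toReal_zero] at h6
    refine h6.congr fun k => ?_
    exact ENNReal.toReal_ofReal (Real.rpow_nonneg (abs_nonneg _) _)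
  have h7 : Tendsto (fun k => (|d k z| ^ q k) ^ (1 / Q)) atTop (𝓝 0) := by
    have h8 := (Real.continuousAt_rpow_const (0 : ℝ) (1 / Q) (Or.inr (by positivity))).tendsto.comp
      h5
    rw [Real.zero_rpow (by positivity)] at h8
    exact h8
  have h9 : ∀ᶠ k in atTop, |d k z| ≤ (|d k z| ^ q k) ^ (1 / Q) := by
    filter_upwards [h5.eventually (gt_mem_nhds one_pos)] with k hk
    have hq0 : 0 < q k := by
      have := hq1 k
      linarith
    have h10 : |d k z| = (|d k z| ^ q k) ^ (1 / q k) := by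
      rw [← Real.rpow_mul (abs_nonneg _), mul_one_div_cancel hq0.ne', Real.rpow_one]
    rcases eq_or_lt_of_le (abs_nonneg (d k z)) with h0 | h0
    · rw [← h0]
      exact Real.rpow_nonneg (Real.rpow_nonneg le_rfl _) _
    · conv_lhs => rw [h10]
      refine Real.rpow_le_rpow_of_exponent_ge (Real.rpow_pos_of_pos h0 _) hk.le ?_
      exact one_div_le_one_div_of_le hq0 (hq2 k)
  rw [tendsto_zero_iff_abs_tendsto_zero]
  refine squeeze_zero' (Eventually.of_forall fun k => abs_nonneg _) h9 h7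

theorem pw_ineq {x y a q : ℝ} (hx : 0 ≤ x) (hy : 0 ≤ y) (ha : 0 ≤ a) (hxy : a ≤ x + y)
    (hq : 0 ≤ q) : a ^ q ≤ 2 ^ q * (x ^ q + y ^ q) := by
  have h1 : a ≤ 2 * max x y := by
    have := le_max_left x y
    have := le_max_right x y
    linarith
  have h2 : (max x y) ^ q ≤ x ^ q + y ^ q := by
    rcases max_choice x y with h | h <;> rw [h]
    · have := Real.rpow_nonneg hy q
      linarith
    · have := Real.rpow_nonneg hx q
      linarith
  calc a ^ q ≤ (2 * max x y) ^ q := Real.rpow_le_rpow ha h1 hq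
    _ = 2 ^ q * (max x y) ^ q := Real.mul_rpow (by norm_num) (le_max_of_le_left hx)
    _ ≤ _ := mul_le_mul_of_nonneg_left h2 (by positivity)

theorem N_cont {n : ℕ} : Continuous (fun z : H n => N z) := by
  unfold N N4 Pool.Agent.H93.HQ.sq
  fun_prop

theorem tail_transfer {n : ℕ} (q : ℕ → ℝ) (Q : ℝ) (hq1 : ∀ k, 1 ≤ q k) (hq2 : ∀ k, q k ≤ Q)
    (φ u : ℕ → H n → ℝ) (hφ : ∀ k, Continuous (φ k))
    (hφL : ∀ k, MemLp (φ k) (ENNReal.ofReal (q k)))
    (hu : ∀ k, MemLp (u k) (ENNReal.ofReal (q k))) (hT : Tail q φ)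
    (hd : Tendsto (fun k => ∫ z, |φ k z - u k z| ^ q k) atTop (𝓝 0)) : Tail q u := by
  intro η hη
  have hK : 0 < (2 : ℝ) ^ Q := by positivity
  obtain ⟨M, R, hMR⟩ := hT (η / 2 / 2 ^ Q) (by positivity)
  refine ⟨2 * max M 0, R, ?_⟩
  filter_upwards [hMR, hd.eventually (gt_mem_nhds (by positivity : 0 < η / 2 / 2 ^ Q))] with
    k hk1 hk2
  have hi1 := int_pow (hq1 k) (hu k)
  have hdL : MemLp (fun z => φ k z - u k z) (ENNReal.ofReal (q k)) := (hφL k).sub (hu k)
  have hi2 : Integrable (fun z => |φ k z - u k z| ^ q k) := int_pow (hq1 k) hdL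
  refine ⟨hi1, ?_⟩
  have hq0 : 0 ≤ q k := by
    have := hq1 k
    linarith
  obtain ⟨E, hE⟩ : ∃ E : Set (H n), E = {z | M < |φ k z| ∨ R < N z} := ⟨_, rfl⟩
  have hEm : MeasurableSet E := by
    rw [hE]
    exact (measurableSet_lt measurable_const (hφ k).abs.measurable).union
      (measurableSet_lt measurable_const N_cont.measurable)
  obtain ⟨U, hU⟩ : ∃ U : Set (H n), U = {z | 2 * max M 0 < |u k z| ∨ R < N z} := ⟨_, rfl⟩
  have hUm : NullMeasurableSet U volume := by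
    rw [hU]
    refine NullMeasurableSet.union ?_ (measurableSet_lt measurable_const
      N_cont.measurable).nullMeasurableSet
    exact nullMeasurableSet_lt aemeasurable_const (hu k).1.aemeasurable.abs
  obtain ⟨Gf, hGf⟩ : ∃ Gf : H n → ℝ, Gf = fun z => 2 ^ q k *
      (E.indicator (fun z => |φ k z| ^ q k) z + |φ k z - u k z| ^ q k) := ⟨_, rfl⟩
  have hGi : Integrable Gf := by
    rw [hGf]
    exact ((hk1.1.indicator hEm).add hi2).const_mul _
  have hG0 : ∀ z, 0 ≤ Gf z := by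
    intro z
    rw [hGf]
    have h1 : 0 ≤ E.indicator (fun z => |φ k z| ^ q k) z :=
      indicator_nonneg (fun _ _ => Real.rpow_nonneg (abs_nonneg _) _) z
    have h2 : 0 ≤ |φ k z - u k z| ^ q k := Real.rpow_nonneg (abs_nonneg _) _
    positivity
  have hpt : ∀ z ∈ U, |u k z| ^ q k ≤ Gf z := by
    intro z hz
    have hxy : |u k z| ≤ |φ k z| + |φ k z - u k z| := by
      have h1 : u k z = φ k z - (φ k z - u k z) := by ring
      calc |u k z| = |φ k z - (φ k z - u k z)| := by rw [← h1]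
        _ ≤ _ := abs_sub _ _
    rw [hGf]
    simp only
    by_cases hzE : z ∈ E
    · rw [indicator_of_mem hzE]
      exact pw_ineq (abs_nonneg _) (abs_nonneg _) (abs_nonneg _) hxy hq0
    · rw [indicator_of_notMem hzE, zero_add]
      rw [hE, mem_ofPred_eq, not_or, not_lt, not_lt] at hzE
      rw [hU, mem_ofPred_eq] at hz
      have h1 : 2 * max M 0 < |u k z| := hz.resolve_right (not_lt.2 hzE.2)
      have h2 : M ≤ max M 0 := le_max_left _ _
      have h3 : |u k z| ≤ 2 * |φ k z - u k z| := by linarith [hzE.1]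
      calc |u k z| ^ q k ≤ (2 * |φ k z - u k z|) ^ q k :=
            Real.rpow_le_rpow (abs_nonneg _) h3 hq0
        _ = _ := Real.mul_rpow (by norm_num) (abs_nonneg _)
  have hle : ∫ z in U, |u k z| ^ q k ≤ ∫ z, Gf z := by
    refine (integral_mono_ae hi1.integrableOn hGi.integrableOn
      ((ae_restrict_iff'₀ hUm).2 (Eventually.of_forall hpt))).trans ?_
    exact setIntegral_le_integral hGi (Eventually.of_forall hG0)
  have hGint : ∫ z, Gf z = 2 ^ q k * ((∫ z in E, |φ k z| ^ q k) +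
      ∫ z, |φ k z - u k z| ^ q k) := by
    rw [hGf, integral_const_mul, integral_add (hk1.1.indicator hEm) hi2, integral_indicator hEm]
  rw [← hU]
  refine hle.trans ?_
  rw [hGint]
  have h4 := hk1.2
  rw [← hE] at h4
  have h5 : (2 : ℝ) ^ q k ≤ 2 ^ Q := Real.rpow_le_rpow_of_exponent_le (by norm_num) (hq2 k)
  have h6 : 0 ≤ (∫ z in E, |φ k z| ^ q k) + ∫ z, |φ k z - u k z| ^ q k := by
    have h7 : 0 ≤ ∫ z in E, |φ k z| ^ q k :=
      integral_nonneg fun z => Real.rpow_nonneg (abs_nonneg _) _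
    have h8 : 0 ≤ ∫ z, |φ k z - u k z| ^ q k :=
      integral_nonneg fun z => Real.rpow_nonneg (abs_nonneg _) _
    linarith
  calc 2 ^ q k * ((∫ z in E, |φ k z| ^ q k) + ∫ z, |φ k z - u k z| ^ q k)
      ≤ 2 ^ Q * ((∫ z in E, |φ k z| ^ q k) + ∫ z, |φ k z - u k z| ^ q k) :=
        mul_le_mul_of_nonneg_right h5 h6
    _ ≤ 2 ^ Q * (η / 2 / 2 ^ Q + η / 2 / 2 ^ Q) :=
        mul_le_mul_of_nonneg_left (by linarith) hK.le
    _ = η := by
        field_simp
        ring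

theorem exists_lower (p : ℕ → ℝ) (h1 : ∀ k, 1 < p k) (h : Tendsto p atTop (𝓝 2)) :
    ∃ a : ℝ, 1 < a ∧ a ≤ 2 ∧ ∀ k, a ≤ p k := by
  obtain ⟨K, hK⟩ := eventually_atTop.1 (h.eventually (lt_mem_nhds (by norm_num : (3 / 2 : ℝ) < 2)))
  have h2 : ∀ m : ℕ, ∃ a : ℝ, 1 < a ∧ a ≤ 3 / 2 ∧ ∀ k < m, a ≤ p k := by
    intro m
    induction m with
    | zero => exact ⟨3 / 2, by norm_num, le_rfl, fun k hk => absurd hk (Nat.not_lt_zero k)⟩
    | succ m ih =>
      obtain ⟨a, ha1, ha2, ha3⟩ := ih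
      refine ⟨min a (p m), lt_min ha1 (h1 m), (min_le_left _ _).trans ha2, fun k hk => ?_⟩
      rcases Nat.lt_succ_iff_lt_or_eq.1 hk with h | h
      · exact (min_le_left _ _).trans (ha3 k h)
      · rw [h]
        exact min_le_right _ _
  obtain ⟨a, ha1, ha2, ha3⟩ := h2 K
  refine ⟨a, ha1, by linarith, fun k => ?_⟩
  rcases lt_or_ge k K with hk | hk
  · exact ha3 k hk
  · have := hK k hk
    linarith

theorem pf_CTS (hAPX : T_APX) (hEQI : T_EQI) (hREL : T_REL) (hVTQ : T_VTQ) (hLSC : T_LSC)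
    (hSUP : T_SUP) (hCL2 : T_CL2) (hOPT : T_OPT) (hSOB : T_SOB) (hCLT : T_CLT) (hZID : T_ZID) :
    T_CTS := by
  intro n hn p S T u g hp hplim hS hT hext hpos hcen
  have hn' : (1 : ℝ) ≤ n := by exact_mod_cast hn
  have hpn : ∀ k, p k < 2 * (n : ℝ) + 2 := fun k => by
    have := (hp k).2
    linarith
  have h2n : (2 : ℝ) < 2 * (n : ℝ) + 2 := by linarith
  obtain ⟨a, ha1, ha2, hap⟩ := exists_lower p (fun k => (hp k).1) hplim
  obtain ⟨L, M0, hL, hOP⟩ := hOPT n hn a 2 ha1 ha2 h2n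
  have hSb : ∀ k, L ≤ S k ∧ S k ≤ M0 := fun k => (hOP (p k) (hap k) (hp k).2).2 _ (hS k)
  have hkap : 0 < kap n := by
    unfold kap
    positivity
  have hεpos : ∀ k : ℕ, 0 < min (1 / ((k : ℝ) + 1)) (kap n) := fun k =>
    lt_min (by positivity) hkap
  choose φ hφN hφd hφc using fun k => hAPX n hn (p k) (S k) _ (hp k).1 (hpn k) (hεpos k) (hS k)
    (u k) (g k) (hext k) (hcen k)
  obtain ⟨q, hq⟩ : ∃ q : ℕ → ℝ, ∀ k, q k = ps n (p k) := ⟨_, fun _ => rfl⟩
  have hq1 : ∀ k, 1 ≤ q k := fun k => by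
    rw [hq]
    exact (ps_bounds hn (hp k).1 (hp k).2).1
  have hq2 : ∀ k, q k ≤ ps n 2 := fun k => by
    rw [hq]
    exact (ps_bounds hn (hp k).1 (hp k).2).2
  have hqlim : Tendsto q atTop (𝓝 (ps n 2)) := by
    refine (ps_tendsto hn hplim).congr fun k => (hq k).symm
  have hφL : ∀ k, MemLp (φ k) (ENNReal.ofReal (q k)) := fun k => by
    rw [hq]
    exact (hCLT n hn (p k) (hp k).1 (hpn k) (φ k) (hφN k).1).1
  have huL : ∀ k, MemLp (u k) (ENNReal.ofReal (q k)) := fun k => by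
    rw [hq]
    exact (hext k).1.1
  -- tails of the test functions
  have hTail : Tail q φ := by
    intro η hη
    obtain ⟨ε, M, R, hε, hE⟩ := hEQI n hn a 2 η ha1 ha2 h2n hη
    refine ⟨M, R, ?_⟩
    obtain ⟨K, hK⟩ := exists_nat_one_div_lt hε
    filter_upwards [eventually_ge_atTop K] with k hk
    refine ⟨int_pow (hq1 k) (hφL k), ?_⟩
    rw [hq]
    refine hE (p k) (S k) (hap k) (hp k).2 (hS k) (φ k) ⟨(hφN k).1, (hφN k).2.1, ?_⟩ ?_
    · refine (hφN k).2.2.trans ?_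
      have h1 : min (1 / ((k : ℝ) + 1)) (kap n) ≤ ε := by
        refine (min_le_left _ _).trans (le_trans ?_ hK.le)
        refine one_div_le_one_div_of_le (by positivity) ?_
        have : (K : ℝ) ≤ k := by exact_mod_cast hk
        linarith
      linarith
    · intro i b
      exact (hφc k i b).trans (min_le_right _ _)
  -- convergence almost everywhere
  obtain ⟨σ₁, w, hσ₁, hw, hae₁⟩ := hREL n hn a 2 (max 1 (M0 + 1)) p φ ha1 ha2 h2n
    (fun k => ⟨hap k, (hp k).2⟩) (fun k => (hφN k).1)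
    (fun k => by
      rw [(hφN k).2.1]
      exact le_max_left _ _)
    (fun k => by
      refine (hφN k).2.2.trans (le_trans ?_ (le_max_right _ _))
      have h1 : min (1 / ((k : ℝ) + 1)) (kap n) ≤ 1 := by
        refine (min_le_left _ _).trans ?_
        rw [div_le_one (by positivity)]
        have : (0 : ℝ) ≤ k := by positivity
        linarith
      have := (hSb k).2
      linarith)
  obtain ⟨A', -, σ₂, hσ₂, hA₂⟩ := (isCompact_Icc (a := L) (b := M0)).tendsto_subseq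
    (x := fun k => S (σ₁ k)) (fun k => hSb (σ₁ k))
  have hpow : StrictMono fun k : ℕ => 2 ^ k := pow_right_strictMono₀ (by norm_num)
  obtain ⟨σ, hσd⟩ : ∃ σ : ℕ → ℕ, ∀ k, σ k = σ₁ (σ₂ (2 ^ k)) := ⟨_, fun _ => rfl⟩
  have hσ : StrictMono σ := by
    intro i j hij
    rw [hσd, hσd]
    exact hσ₁ (hσ₂ (hpow hij))
  have hσge : ∀ k, 2 ^ k ≤ σ k := fun k => by
    rw [hσd]
    exact (hσ₂.le_apply).trans hσ₁.le_apply
  have hSlim : Tendsto (fun k => S (σ k)) atTop (𝓝 A') := by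
    have h1 := hA₂.comp hpow.tendsto_atTop
    refine h1.congr fun k => ?_
    rw [hσd]
    rfl
  have haeφ : ∀ᵐ z, Tendsto (fun k => φ (σ k) z) atTop (𝓝 (w z)) := by
    filter_upwards [hae₁] with z hz
    have h1 := hz.comp ((hσ₂.comp hpow).tendsto_atTop)
    refine h1.congr fun k => ?_
    rw [hσd]
    rfl
  have hεσ : ∀ k, min (1 / ((σ k : ℝ) + 1)) (kap n) ≤ (1 / 2) ^ k := by
    intro k
    refine (min_le_left _ _).trans ?_
    rw [one_div_pow]
    refine one_div_le_one_div_of_le (by positivity) ?_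
    have h1 : ((2 ^ k : ℕ) : ℝ) ≤ σ k := by exact_mod_cast hσge k
    push_cast at h1
    linarith
  have hgeo : Tendsto (fun k : ℕ => (1 / 2 : ℝ) ^ k) atTop (𝓝 0) :=
    tendsto_pow_atTop_nhds_zero_of_lt_one (by norm_num) (by norm_num)
  have hdle : ∀ k, ∫ z, |φ (σ k) z - u (σ k) z| ^ q (σ k) ≤ (1 / 2) ^ k := by
    intro k
    rw [hq]
    exact (hφd (σ k)).trans (hεσ k)
  have haed := diff_ae (fun k => q (σ k)) (ps n 2) (fun k => hq1 _) (fun k => hq2 _)
    (fun k z => φ (σ k) z - u (σ k) z) (fun k => (hφL _).sub (huL _)) hdle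
  have haeu : ∀ᵐ z, Tendsto (fun k => u (σ k) z) atTop (𝓝 (w z)) := by
    filter_upwards [haeφ, haed] with z h1 h2
    have h3 := h1.sub h2
    rw [sub_zero] at h3
    refine h3.congr fun k => ?_
    ring
  have hwpos : ∀ᵐ z, 0 ≤ w z := by
    have h1 : ∀ᵐ z, ∀ k, 0 ≤ u k z := ae_all_iff.2 hpos
    filter_upwards [haeu, h1] with z h2 h3
    exact ge_of_tendsto' h2 fun k => h3 _
  -- Vitali
  have hTσ := tail_sub hTail hσ
  obtain ⟨-, hV1, hV2, -⟩ := hVTQ n (fun k => q (σ k)) (ps n 2) (fun k => φ (σ k)) w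
    ((hq1 0).trans (hq2 0)) (fun k => hq1 _) (hqlim.comp hσ.tendsto_atTop)
    (fun k => (hφL (σ k)).1) hw.aestronglyMeasurable haeφ hTσ
  have hms : ms (ps n 2) w = 1 := by
    refine tendsto_nhds_unique hV1 ?_
    refine tendsto_const_nhds.congr fun k => ?_
    rw [hq]
    exact ((hφN (σ k)).2.1).symm
  have hwc : Cen (fun z => |w z| ^ ps n 2) := by
    intro i b
    obtain ⟨hz1, hz2, -⟩ := hZID n hn
    have h1 := hV2 (rz i b) (hz1 i b).continuous.measurable ⟨1, hz2 i b⟩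
    refine tendsto_nhds_unique h1 ?_
    rw [tendsto_zero_iff_abs_tendsto_zero]
    refine squeeze_zero (fun k => abs_nonneg _) (fun k => ?_) hgeo
    show |∫ z, |φ (σ k) z| ^ q (σ k) * rz i b z| ≤ _
    rw [hq]
    exact (hφc (σ k) i b).trans (hεσ k)
  -- the energy
  obtain ⟨g', hg1, hg2⟩ := hLSC n hn (fun k => p (σ k))
    (fun k => S (σ k) + min (1 / ((σ k : ℝ) + 1)) (kap n)) A' (max 1 (M0 + 1))
    (fun k => φ (σ k)) w (fun k => ⟨(hp _).1, hpn _⟩) (hplim.comp hσ.tendsto_atTop)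
    (by
      have h1 : Tendsto (fun k => min (1 / ((σ k : ℝ) + 1)) (kap n)) atTop (𝓝 0) :=
        squeeze_zero (fun k => (hεpos (σ k)).le) hεσ hgeo
      have h2 := hSlim.add h1
      rwa [add_zero] at h2)
    (fun k => (hφN _).1) hw.aestronglyMeasurable haeφ
    (fun k => by
      rw [(hφN (σ k)).2.1]
      exact le_max_left _ _)
    (fun k => (hφN _).2.2)
  have hA'T : A' ≤ T := by
    refine le_of_forall_pos_le_add fun ε hε => ?_
    have h1 := hSUP n hn (fun k => p (σ k)) (fun k => S (σ k)) 2 T (fun k => ⟨(hp _).1, hpn _⟩)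
      one_lt_two h2n (hplim.comp hσ.tendsto_atTop) (fun k => hS _) hT ε hε
    exact le_of_tendsto hSlim h1
  have hTg : T ≤ en 2 g' := by
    have h1 := hSOB n hn 2 T one_lt_two h2n hT w g' hg1
    rwa [hms, Real.one_rpow, mul_one] at h1
  have hen : en 2 g' = T := le_antisymm (hg2.trans hA'T) hTg
  have hA'eq : A' = T := le_antisymm hA'T (hTg.trans hg2)
  have hwub : w =ᵐ[volume] ub n := hCL2 n hn T hT w g' ⟨hg1, hms, hen⟩ hwpos hwc
  refine ⟨σ, hσ, ?_, ?_, ?_⟩
  · filter_upwards [haeu, hwub] with z h1 h2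
    rwa [h2] at h1
  · have h1 := tail_transfer (fun k => q (σ k)) (ps n 2) (fun k => hq1 _) (fun k => hq2 _)
      (fun k => φ (σ k)) (fun k => u (σ k)) (fun k => (hφN (σ k)).1.1.continuous)
      (fun k => hφL _) (fun k => huL _) hTσ
      (squeeze_zero (fun k => integral_nonneg fun z => Real.rpow_nonneg (abs_nonneg _) _)
        hdle hgeo)
    have h2 : (fun k => q (σ k)) = fun k => ps n (p (σ k)) := funext fun k => hq _
    rwa [h2] at h1
  · rw [← hA'eq]
    exact hSlim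

end Pool.Agent.H44.HB
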